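import Pool.Agent.Q41.SP.Stm3
import Pool.Agent.Q24.SU.Pb
import Pool.Agent.Q153.SU.Hcm

/-!
# JOB SP-N4 (helper184): inseparable degree
-/

set_option autoImplicit false

namespace Q184.SP

open Finset Polynomial Pool.Agent.Q41.SU Pool.Agent.Q41.SP

universe u

variable {E : Type u} [Field E]

theorem wr_zero {p q : E[X]} (hco : IsCoprime p q) (h : wr p q = 0) :
    derivative p = 0 ∧ derivative q = 0 := by
  have h1 : derivative p * q = p * derivative q := sub_eq_zero.1 h
  have key : ∀ f g : E[X], IsCoprime f g → g ∣ f * derivative g → derivative g = 0 := by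
    intro f g hfg hd
    have h2 : g ∣ derivative g := hfg.symm.dvd_of_dvd_mul_left hd
    by_contra h3
    have h4 := natDegree_le_of_dvd h2 h3
    by_cases h5 : g.natDegree = 0
    · exact h3 (derivative_of_natDegree_zero h5)
    · have := natDegree_derivative_lt h5
      omega
  refine ⟨key q p hco.symm ⟨derivative q, ?_⟩, key p q hco ⟨derivative p, ?_⟩⟩
  · rw [mul_comm, h1]
  · rw [← h1, mul_comm]

theorem max_mul' (a b l : ℕ) : max (a * l) (b * l) = max a b * l := by
  rcases le_total a b with h | h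
  · rw [max_eq_right h, max_eq_right (Nat.mul_le_mul_right l h)]
  · rw [max_eq_left h, max_eq_left (Nat.mul_le_mul_right l h)]

theorem contr (l : ℕ) [hl : Fact l.Prime] [CharP E l] {d : ℕ} {p q : E[X]} (h : RM d p q)
    (hw : wr p q = 0) : ∃ (d₂ : ℕ) (p₂ q₂ : E[X]), d = d₂ * l ∧ RM d₂ p₂ q₂ ∧
      p = expand E l p₂ ∧ q = expand E l q₂ := by
  obtain ⟨hp', hq'⟩ := wr_zero h.co hw
  have hl0 : l ≠ 0 := hl.out.ne_zero
  have e1 : expand E l (contract l p) = p := expand_contract l hp' hl0
  have e2 : expand E l (contract l q) = q := expand_contract l hq' hl0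
  refine ⟨max (contract l p).natDegree (contract l q).natDegree, contract l p, contract l q, ?_,
    ⟨?_, rfl⟩, e1.symm, e2.symm⟩
  · rw [← h.deg, ← max_mul', ← natDegree_expand, ← natDegree_expand, e1, e2]
  · rw [← isCoprime_expand hl0, e1, e2]
    exact h.co

theorem part1 (l : ℕ) [hl : Fact l.Prime] [CharP E l] : ∀ d, 1 ≤ d → ∀ p q : E[X], RM d p q →
    ∃ (s : ℕ) (p₁ q₁ : E[X]), l ^ s ≤ d ∧ p = expand E (l ^ s) p₁ ∧ q = expand E (l ^ s) q₁ ∧
      wr p₁ q₁ ≠ 0 := by
  intro d
  induction d using Nat.strong_induction_on with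
  | _ d ih =>
    intro hd p q h
    by_cases hw : wr p q = 0
    · obtain ⟨d₂, p₂, q₂, e, h2, e1, e2⟩ := contr l h hw
      have hl2 := hl.out.two_le
      have hd2 : 1 ≤ d₂ := by
        rcases Nat.eq_zero_or_pos d₂ with h0 | h0
        · rw [h0, zero_mul] at e; omega
        · exact h0
      obtain ⟨s, p₁, q₁, hs, f1, f2, f3⟩ := ih d₂ (by rw [e]; nlinarith) hd2 p₂ q₂ h2
      refine ⟨s + 1, p₁, q₁, ?_, ?_, ?_, f3⟩
      · rw [pow_succ, e]
        exact Nat.mul_le_mul_right l hs
      · rw [e1, f1, expand_expand, pow_succ, mul_comm]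
      · rw [e2, f2, expand_expand, pow_succ, mul_comm]
    · exact ⟨0, p, q, by simpa using hd, by rw [pow_zero, expand_one], by
        rw [pow_zero, expand_one], hw⟩

theorem hcm_exp (l : ℕ) [hl : Fact l.Prime] [CharP E l] (d n : ℕ) (hld : l ∣ d) (A u v : E[X]) :
    ∃ w, hcm d (expand E l A) (expand E (l ^ n) u) (expand E (l ^ n) v) =
      expand E (l ^ (n + 1)) w := by
  have hl0 : 0 < l := hl.out.pos
  have h1 : hcm d (expand E l A) (expand E (l ^ n) u) (expand E (l ^ n) v) ∈
      (expand E (l ^ (n + 1))).range := by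
    unfold hcm
    refine sum_mem fun i hi => ?_
    have hi' : i ≤ d := Nat.lt_succ_iff.1 (mem_range.1 hi)
    by_cases hli : l ∣ i
    · obtain ⟨j, hj⟩ := hli
      obtain ⟨j', hj'⟩ : l ∣ d - i := Nat.dvd_sub hld ⟨j, hj⟩
      refine ⟨C ((expand E l A).coeff i) * map (frobenius E l) (u ^ j * v ^ j'), ?_⟩
      change expand E (l ^ (n + 1)) _ = _
      rw [_root_.map_mul, expand_C, mul_assoc]
      congr 1
      rw [pow_succ, ← expand_expand, ← map_expand, map_frobenius_expand, ← map_pow, ← map_pow,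
        ← map_mul]
      congr 1
      rw [hj', hj, mul_pow, ← pow_mul, ← pow_mul, mul_comm j l, mul_comm j' l]
    · rw [coeff_expand hl0, if_neg hli, C_0, zero_mul, zero_mul]
      exact zero_mem _
  obtain ⟨w, hw⟩ := h1
  exact ⟨w, hw.symm⟩

theorem itr_exp (l : ℕ) [hl : Fact l.Prime] [CharP E l] (d : ℕ) (hld : l ∣ d) (p₂ q₂ : E[X]) :
    ∀ n, ∃ u v, (itr d (expand E l p₂) (expand E l q₂) n).1 = expand E (l ^ n) u ∧
      (itr d (expand E l p₂) (expand E l q₂) n).2 = expand E (l ^ n) v := by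
  intro n
  induction n with
  | zero => exact ⟨X, 1, by rw [pow_zero, expand_one]; rfl, by rw [pow_zero, expand_one]; rfl⟩
  | succ n ih =>
    obtain ⟨u, v, hu, hv⟩ := ih
    obtain ⟨w1, h1⟩ := hcm_exp l d n hld p₂ u v
    obtain ⟨w2, h2⟩ := hcm_exp l d n hld q₂ u v
    refine ⟨w1, w2, ?_, ?_⟩
    · change hcm d _ _ _ = _
      rw [hu, hv, h1]
    · change hcm d _ _ _ = _
      rw [hu, hv, h2]

/-- the derivative of a homogenised polynomial -/
theorem deriv_hcm {d : ℕ} (A u v : E[X]) :
    v * derivative (hcm (d + 1) A u v) = hcm d (derivative A) u v * wr u v +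
      C ((d + 1 : ℕ) : E) * derivative v * hcm (d + 1) A u v := by
  have key : ∀ i ≤ d + 1, v * derivative (u ^ i * v ^ (d + 1 - i)) =
      (C (i : E) * u ^ (i - 1) * v ^ (d + 1 - i)) * wr u v +
      C ((d + 1 : ℕ) : E) * derivative v * (u ^ i * v ^ (d + 1 - i)) := by
    intro i hi
    obtain ⟨j, hj⟩ : ∃ j, d + 1 = i + j := ⟨d + 1 - i, by omega⟩
    rw [hj, Nat.add_sub_cancel_left, derivative_mul, derivative_pow, derivative_pow]
    unfold wr
    have e1 : C (i : E) * u ^ (i - 1) * u = C (i : E) * u ^ i := by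
      rcases Nat.eq_zero_or_pos i with h | h
      · subst h; simp
      · rw [mul_assoc, ← pow_succ, show i - 1 + 1 = i by omega]
    have e2 : C (j : E) * v ^ (j - 1) * v = C (j : E) * v ^ j := by
      rcases Nat.eq_zero_or_pos j with h | h
      · subst h; simp
      · rw [mul_assoc, ← pow_succ, show j - 1 + 1 = j by omega]
    have e3 : C ((i + j : ℕ) : E) = C (i : E) + C (j : E) := by
      rw [Nat.cast_add, C_add]
    rw [e3]
    linear_combination (u ^ i * derivative v) * e2 + (v ^ j * derivative v) * e1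
  have h1 : hcm d (derivative A) u v =
      ∑ i ∈ range (d + 2), C (A.coeff i) * (C (i : E) * u ^ (i - 1) * v ^ (d + 1 - i)) := by
    rw [Finset.sum_range_succ' _ (d + 1)]
    unfold hcm
    simp only [Nat.cast_zero, C_0, zero_mul, mul_zero, add_zero]
    refine Finset.sum_congr rfl fun i _ => ?_
    rw [coeff_derivative, Nat.add_sub_cancel, show d + 1 - (i + 1) = d - i by omega, C_mul]
    push_cast
    ring
  rw [h1]
  unfold hcm
  rw [derivative_sum, Finset.mul_sum, Finset.sum_mul, Finset.mul_sum, ← Finset.sum_add_distrib]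
  refine Finset.sum_congr rfl fun i hi => ?_
  have hi' : i ≤ d + 1 := Nat.lt_succ_iff.1 (mem_range.1 hi)
  rw [mul_assoc (C (A.coeff i)), derivative_C_mul]
  linear_combination (C (A.coeff i)) * key i hi'

theorem step_wr {d : ℕ} {p q u v : E[X]} (hpq : RM (d + 1) p q) (huv : IsCoprime u v) (hv : v ≠ 0)
    (hdeg : 1 ≤ max u.natDegree v.natDegree) (hw : wr p q ≠ 0) (hw' : wr u v ≠ 0) :
    wr (hcm (d + 1) p u v) (hcm (d + 1) q u v) ≠ 0 := by
  intro h0
  have hp : p.natDegree ≤ d + 1 := by rw [← hpq.deg]; exact le_max_left _ _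
  have hq : q.natDegree ≤ d + 1 := by rw [← hpq.deg]; exact le_max_right _ _
  have e1 := deriv_hcm (d := d) p u v
  have e2 := deriv_hcm (d := d) q u v
  have e3 : (hcm d (derivative p) u v * hcm (d + 1) q u v -
      hcm (d + 1) p u v * hcm d (derivative q) u v) * wr u v = 0 := by
    have : v * wr (hcm (d + 1) p u v) (hcm (d + 1) q u v) = 0 := by rw [h0, mul_zero]
    unfold wr at this ⊢
    unfold wr at e1 e2
    linear_combination this - (hcm (d + 1) q u v) * e1 + (hcm (d + 1) p u v) * e2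
  have e4 := (mul_eq_zero.1 e3).resolve_right hw'
  have hp' : (derivative p).natDegree ≤ d := (natDegree_derivative_le p).trans (by omega)
  have hq' : (derivative q).natDegree ≤ d := (natDegree_derivative_le q).trans (by omega)
  have e5 := congrArg (algebraMap E[X] (RatFunc E)) e4
  rw [map_sub, map_mul, map_mul, map_zero, Pool.Agent.Q153.SU.hcm_spec hv hp',
    Pool.Agent.Q153.SU.hcm_spec hv hq', Pool.Agent.Q153.SU.hcm_spec hv hp,
    Pool.Agent.Q153.SU.hcm_spec hv hq] at e5
  have hv' := Pool.Agent.Q153.SU.am_ne hv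
  have e6 : (algebraMap E[X] (RatFunc E) v) ^ (d + (d + 1)) * aeval (rf u v) (wr p q) = 0 := by
    unfold wr
    rw [map_sub, map_mul, map_mul, pow_add]
    linear_combination e5
  have e7 := (mul_eq_zero.1 e6).resolve_left (pow_ne_zero _ hv')
  have e8 := Pool.Agent.Q153.SU.hcm_spec (A := wr p q) (d := (wr p q).natDegree) (u := u) hv le_rfl
  rw [e7, mul_zero] at e8
  exact Pool.Agent.Q153.SU.am_ne (Pool.Agent.Q24.SU.hcm_ne le_rfl hw huv hv hdeg) e8

theorem t_insP (hit : S_itP.{u}) : S_insP.{u} := by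
  intro l E _ hl _ d p q hd h
  refine ⟨part1 l d hd p q h, ?_, ?_⟩
  · intro hw n
    induction n with
    | zero =>
      change wr X 1 ≠ 0
      unfold wr
      simp
    | succ n ih =>
      obtain ⟨e, rfl⟩ : ∃ e, d = e + 1 := ⟨d - 1, by omega⟩
      have h1 := (hit E (e + 1) p q hd h n).1
      have h3 : 1 ≤ (e + 1) ^ n := Nat.one_le_pow _ _ hd
      have hdeg : 1 ≤ max (itr (e + 1) p q n).1.natDegree (itr (e + 1) p q n).2.natDegree := by
        rw [h1.deg]; exact h3
      have hv : (itr (e + 1) p q n).2 ≠ 0 := by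
        intro h0
        have h4 := h1.co
        rw [h0, isCoprime_zero_right] at h4
        rw [h0, natDegree_zero, natDegree_eq_zero_of_isUnit h4] at hdeg
        simp at hdeg
      exact step_wr h h1.co hv hdeg hw ih
  · intro hw n s p₁ q₁ e1 e2 hw1
    by_contra hns
    push Not at hns
    obtain ⟨d₂, p₂, q₂, hd2, h2, f1, f2⟩ := contr l h hw
    obtain ⟨u, v, hu, hv⟩ := itr_exp l d ⟨d₂, by rw [hd2, mul_comm]⟩ p₂ q₂ n
    rw [← f1, ← f2] at hu hv
    obtain ⟨m, hm⟩ : ∃ m, n = s + (m + 1) := ⟨n - s - 1, by omega⟩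
    have hls : 0 < l ^ s := pow_pos hl.out.pos s
    have g1 : p₁ = expand E (l ^ (m + 1)) u := by
      apply expand_injective hls
      rw [expand_expand, ← pow_add, ← hm, ← hu, e1]
    have g2 : q₁ = expand E (l ^ (m + 1)) v := by
      apply expand_injective hls
      rw [expand_expand, ← pow_add, ← hm, ← hv, e2]
    have hz : ∀ f : E[X], derivative (expand E (l ^ (m + 1)) f) = 0 := by
      intro f
      rw [derivative_expand]
      have : ((l ^ (m + 1) : ℕ) : E[X]) = 0 := by
        rw [Nat.cast_pow, CharP.cast_eq_zero, zero_pow (by omega)]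
      rw [this, zero_mul, mul_zero]
    apply hw1
    unfold wr
    rw [g1, g2, hz, hz, zero_mul, mul_zero, sub_zero]

end Q184.SP
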