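import Pool.Agent.Q41.SP.Stm3
import Pool.Agent.Q24.SU.Pb
import Pool.Agent.Q153.SU.Hcm

/-!
# JOB SP-N6 (helper184): purity for inseparable maps
-/

set_option autoImplicit false

namespace Q184.SP

open Finset Polynomial Pool.Agent.Q41.SU Pool.Agent.Q41.SP

universe u

section abstr

variable {B : Type u} [CommRing B]

/-- the homogenised polynomial -/
noncomputable def Hm (β : ℕ) (g p q : B[X]) : B[X] :=
  ∑ j ∈ range (β + 1), C (g.coeff j) * p ^ j * q ^ (β - j)

theorem Hm_mul (β : ℕ) (g p q : B[X]) (w : B) (hg : g.natDegree ≤ β) :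
    Hm (β + 1) ((X - C w) * g) p q = (p - C w * q) * Hm β g p q := by
  unfold Hm
  have h1 : ∀ j, ((X - C w) * g).coeff j = (X * g).coeff j - w * g.coeff j := by
    intro j
    rw [sub_mul, coeff_sub, coeff_C_mul]
  have h2 : ∑ j ∈ range (β + 1 + 1), C (((X - C w) * g).coeff j) * p ^ j * q ^ (β + 1 - j) =
      ∑ j ∈ range (β + 1 + 1), C ((X * g).coeff j) * p ^ j * q ^ (β + 1 - j) -
      ∑ j ∈ range (β + 1 + 1), C w * (C (g.coeff j) * p ^ j * q ^ (β + 1 - j)) := by
    rw [← Finset.sum_sub_distrib]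
    refine Finset.sum_congr rfl fun j _ => ?_
    rw [h1, C_sub, C_mul]
    ring
  have h3 : ∑ j ∈ range (β + 1 + 1), C ((X * g).coeff j) * p ^ j * q ^ (β + 1 - j) =
      p * ∑ j ∈ range (β + 1), C (g.coeff j) * p ^ j * q ^ (β - j) := by
    rw [Finset.sum_range_succ' _ (β + 1), coeff_X_mul_zero, C_0, zero_mul, zero_mul, add_zero,
      Finset.mul_sum]
    refine Finset.sum_congr rfl fun j _ => ?_
    rw [coeff_X_mul, Nat.add_sub_add_right, pow_succ]
    ring
  have h4 : ∑ j ∈ range (β + 1 + 1), C w * (C (g.coeff j) * p ^ j * q ^ (β + 1 - j)) =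
      C w * q * ∑ j ∈ range (β + 1), C (g.coeff j) * p ^ j * q ^ (β - j) := by
    rw [Finset.sum_range_succ, coeff_eq_zero_of_natDegree_lt (lt_of_le_of_lt hg (Nat.lt_succ_self β)),
      C_0, zero_mul, zero_mul, mul_zero, add_zero, Finset.mul_sum]
    refine Finset.sum_congr rfl fun j hj => ?_
    have hj' : j ≤ β := Nat.lt_succ_iff.1 (mem_range.1 hj)
    rw [show β + 1 - j = (β - j) + 1 by omega, pow_succ]
    ring
  rw [h2, h3, h4, sub_mul]

theorem Hm_eval (β : ℕ) (g p q : B[X]) (v w : B) (hg : g.natDegree ≤ β)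
    (hp : p.eval v = w * q.eval v) : (Hm β g p q).eval v = q.eval v ^ β * g.eval w := by
  unfold Hm
  rw [eval_finsetSum, eval_eq_sum_range' (Nat.lt_succ_of_le hg), Finset.mul_sum]
  refine Finset.sum_congr rfl fun j hj => ?_
  have hj' : j ≤ β := Nat.lt_succ_iff.1 (mem_range.1 hj)
  rw [eval_mul, eval_mul, eval_C, eval_pow, eval_pow, hp, mul_pow]
  obtain ⟨i, rfl⟩ : ∃ i, β = j + i := ⟨β - j, by omega⟩
  rw [Nat.add_sub_cancel_left, pow_add]
  ring

theorem fib_aux (p q U : B[X]) (v w : B) (hh : p - C w * q = (X - C v) * U)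
    (hq : IsUnit (q.eval v)) (hU : IsUnit (U.eval v)) :
    ∀ (β : ℕ) (g : B[X]), g.natDegree ≤ β → (X - C v) ^ β ∣ Hm β g p q →
      g = C (g.coeff β) * (X - C w) ^ β := by
  rcases subsingleton_or_nontrivial B with hB | hB
  · intro β g _ _
    exact Subsingleton.elim _ _
  have hp : p.eval v = w * q.eval v := by
    have := congrArg (eval v) hh
    simp only [eval_sub, eval_mul, eval_C, eval_X, sub_self, zero_mul] at this
    exact sub_eq_zero.1 this
  have hco : IsCoprime (X - C v) U := by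
    obtain ⟨e, he⟩ := hU.exists_right_inv
    obtain ⟨U', hU'⟩ : (X - C v) ∣ U - C (U.eval v) := X_sub_C_dvd_sub_C_eval
    refine ⟨-(C e * U'), C e, ?_⟩
    have : C e * C (U.eval v) = 1 := by
      rw [← C_mul, mul_comm, he, C_1]
    linear_combination C e * hU' + this
  intro β
  induction β with
  | zero =>
    intro g hg _
    rw [pow_zero, mul_one]
    exact eq_C_of_natDegree_le_zero hg
  | succ β ih =>
    intro g hg hd
    have h1 : (X - C v) ∣ Hm (β + 1) g p q := (dvd_pow_self _ (Nat.succ_ne_zero β)).trans hd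
    have h2 : (Hm (β + 1) g p q).eval v = 0 := by
      obtain ⟨r, hr⟩ := h1
      rw [hr, eval_mul, eval_sub, eval_X, eval_C, sub_self, zero_mul]
    rw [Hm_eval (β + 1) g p q v w hg hp] at h2
    have h3 : g.eval w = 0 := by
      have := hq.pow (β + 1)
      exact (this.mul_right_eq_zero).1 h2
    obtain ⟨g₁, hg₁⟩ : (X - C w) ∣ g := dvd_iff_isRoot.2 h3
    have hm : (X - C w).Monic := monic_X_sub_C w
    have hdeg : g₁.natDegree ≤ β := by
      by_cases h0 : g₁ = 0
      · rw [h0, natDegree_zero]; exact Nat.zero_le _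
      · have h4 := hm.natDegree_mul' h0
        rw [← hg₁, natDegree_X_sub_C] at h4
        omega
    have h5 : (X - C v) ^ β ∣ Hm β g₁ p q := by
      rw [hg₁, Hm_mul β g₁ p q w hdeg, hh, pow_succ'] at hd
      obtain ⟨r, hr⟩ := hd
      have h6 : U * Hm β g₁ p q = (X - C v) ^ β * r := by
        have h7 : (X - C v) * (U * Hm β g₁ p q - (X - C v) ^ β * r) = 0 := by
          linear_combination hr
        exact sub_eq_zero.1 ((monic_X_sub_C v).mul_right_eq_zero_iff.1 h7)
      exact (hco.pow_left).dvd_of_dvd_mul_left ⟨r, h6⟩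
    have h8 := ih g₁ hdeg h5
    have h9 : g.coeff (β + 1) = g₁.coeff β := by
      rw [hg₁, sub_mul, coeff_sub, coeff_X_mul, coeff_C_mul,
        coeff_eq_zero_of_natDegree_lt (lt_of_le_of_lt hdeg (Nat.lt_succ_self β)), mul_zero, sub_zero]
    rw [h9, hg₁, pow_succ']
    nth_rewrite 1 [h8]
    ring

theorem fib (β : ℕ) (g p q : B[X]) (v : B) (hg : g.natDegree ≤ β) (hq : IsUnit (q.eval v))
    (hw : IsUnit ((derivative p * q - p * derivative q).eval v))
    (hd : (X - C v) ^ β ∣ Hm β g p q) : ∃ w, g = C (g.coeff β) * (X - C w) ^ β := by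
  obtain ⟨e, he⟩ := hq.exists_right_inv
  refine ⟨p.eval v * e, ?_⟩
  have h1 : (p - C (p.eval v * e) * q).IsRoot v := by
    rw [IsRoot.def, eval_sub, eval_mul, eval_C]
    linear_combination (-p.eval v) * he
  obtain ⟨U, hU⟩ := dvd_iff_isRoot.2 h1
  refine fib_aux p q U v _ hU hq ?_ β g hg hd
  have h2 := congrArg (eval v) (congrArg derivative hU)
  simp only [derivative_sub, derivative_mul, derivative_C, derivative_X, zero_mul, zero_add,
    sub_zero, one_mul, eval_sub, eval_mul, eval_add, eval_C, eval_X, sub_self, add_zero] at h2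
  rw [← h2]
  have h3 : (derivative p * q - p * derivative q).eval v =
      q.eval v * ((derivative p).eval v - p.eval v * e * (derivative q).eval v) := by
    rw [eval_sub, eval_mul, eval_mul]
    linear_combination (p.eval v * (derivative q).eval v) * he
  rw [h3] at hw
  exact isUnit_of_mul_isUnit_right hw

end abstr

section conc

variable (E : Type u) [Field E]

/-- power series over the rational functions modulo `δ ^ S` -/
abbrev BB (S : ℕ) : Type u :=
  PowerSeries (RatFunc E) ⧸ Ideal.span {(PowerSeries.X : PowerSeries (RatFunc E)) ^ S}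

/-- the quotient map -/
noncomputable abbrev pi (S : ℕ) : PowerSeries (RatFunc E) →+* BB E S := Ideal.Quotient.mk _

/-- the inclusion of the constants -/
noncomputable abbrev io : PowerSeries E →+* PowerSeries (RatFunc E) :=
  PowerSeries.map (algebraMap E (RatFunc E))

variable {E}

/-- the evaluation at a rational function -/
noncomputable def evx (x : RatFunc E) : (PowerSeries E)[X] →+* PowerSeries (RatFunc E) :=
  eval₂RingHom (io E) (PowerSeries.C x)

/-- the evaluation at a rational function, modulo `δ ^ S` -/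
noncomputable def psi (S : ℕ) (x : RatFunc E) : (PowerSeries E)[X] →+* BB E S :=
  (pi E S).comp (evx x)

theorem pi_unit {S : ℕ} {f : PowerSeries (RatFunc E)} (h : PowerSeries.constantCoeff f ≠ 0) :
    IsUnit (pi E S f) := by
  have h1 : IsUnit f := PowerSeries.isUnit_iff_constantCoeff.2 (isUnit_iff_ne_zero.2 h)
  exact h1.map (pi E S)

theorem pi_zero {S : ℕ} {f : PowerSeries (RatFunc E)} : pi E S f = 0 ↔ PowerSeries.X ^ S ∣ f := by
  rw [Ideal.Quotient.eq_zero_iff_mem, Ideal.mem_span_singleton]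

theorem cc_evx (x : RatFunc E) (f : (PowerSeries E)[X]) :
    PowerSeries.constantCoeff (evx x f) = aeval x (f.map PowerSeries.constantCoeff) := by
  have h : (PowerSeries.constantCoeff : PowerSeries (RatFunc E) →+* RatFunc E).comp (evx x) =
      ((aeval x : E[X] →ₐ[E] RatFunc E) : E[X] →+* RatFunc E).comp
        (mapRingHom PowerSeries.constantCoeff) := by
    apply Polynomial.ringHom_ext
    · intro a
      have : PowerSeries.constantCoeff (io E a) =
          algebraMap E (RatFunc E) (PowerSeries.constantCoeff a) := by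
        rw [← PowerSeries.coeff_zero_eq_constantCoeff_apply, PowerSeries.coeff_map,
          PowerSeries.coeff_zero_eq_constantCoeff_apply]
      simp [evx]
      rw [this]
      rfl
    · simp [evx]
  exact DFunLike.congr_fun h f

theorem psi_C (S : ℕ) (x : RatFunc E) (a : PowerSeries E) : psi S x (C a) = pi E S (io E a) := by
  simp [psi, evx]

theorem psi_X (S : ℕ) (x : RatFunc E) : psi S x X = pi E S (PowerSeries.C x) := by
  simp [psi, evx]

theorem psi_dvd {S M : ℕ} (hSM : S ≤ M) (x : RatFunc E) (f : (PowerSeries E)[X])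
    (h : ∀ j, (PowerSeries.X : PowerSeries E) ^ M ∣ f.coeff j) : psi S x f = 0 := by
  have h1 : f = ∑ j ∈ range (f.natDegree + 1), C (f.coeff j) * X ^ j := as_sum_range_C_mul_X_pow f
  rw [h1, map_sum]
  refine Finset.sum_eq_zero fun j _ => ?_
  obtain ⟨r, hr⟩ := (pow_dvd_pow _ hSM).trans (h j)
  rw [map_mul, psi_C, hr, map_mul, map_pow, PowerSeries.map_X]
  have : pi E S (PowerSeries.X ^ S * io E r) = 0 := pi_zero.2 ⟨_, rfl⟩
  rw [this, zero_mul]

theorem evx_coeff (x : RatFunc E) (f : (PowerSeries E)[X]) (n : ℕ) :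
    PowerSeries.coeff n (evx x f) =
      aeval x (∑ j ∈ range (f.natDegree + 1), C (PowerSeries.coeff n (f.coeff j)) * X ^ j) := by
  have h1 : evx x f = ∑ j ∈ range (f.natDegree + 1), io E (f.coeff j) * (PowerSeries.C x) ^ j := by
    change eval₂ (io E) (PowerSeries.C x) f = _
    rw [eval₂_eq_sum_range]
  rw [h1, map_sum, map_sum]
  refine Finset.sum_congr rfl fun j _ => ?_
  rw [← map_pow, PowerSeries.coeff_mul_C, PowerSeries.coeff_map, map_mul, map_pow, aeval_X, aeval_C]

theorem psi_inj {S : ℕ} {x : RatFunc E} (hx : ∀ g : E[X], aeval x g = 0 → g = 0)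
    (f : (PowerSeries E)[X]) (h : psi S x f = 0) (j : ℕ) :
    (PowerSeries.X : PowerSeries E) ^ S ∣ f.coeff j := by
  have h1 : PowerSeries.X ^ S ∣ evx x f := pi_zero.1 h
  rw [PowerSeries.X_pow_dvd_iff] at h1 ⊢
  intro n hn
  by_cases hj : j ≤ f.natDegree
  · have h2 := hx _ ((evx_coeff x f n).symm.trans (h1 n hn))
    have h3 := congrArg (fun g => coeff g j) h2
    simp only [finsetSum_coeff, coeff_C_mul, coeff_X_pow, mul_ite, mul_one, mul_zero, coeff_zero] at h3
    rw [Finset.sum_ite_eq, if_pos (mem_range.2 (Nat.lt_succ_of_le hj))] at h3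
    exact h3
  · rw [coeff_eq_zero_of_natDegree_lt (not_le.1 hj), map_zero]

/-- the value at `X` -/
theorem psi_hcr {S H : ℕ} {P Q : E[X]} (hQ : Q ≠ 0) (g : (PowerSeries E)[X])
    (hg : g.natDegree ≤ H) : psi S RatFunc.X (hcr H g (P.map PowerSeries.C) (Q.map PowerSeries.C)) =
      pi E S (PowerSeries.C (algebraMap E[X] (RatFunc E) Q)) ^ H * psi S (rf P Q) g := by
  have hf : ∀ f : E[X], psi S RatFunc.X (f.map PowerSeries.C) =
      pi E S (PowerSeries.C (algebraMap E[X] (RatFunc E) f)) := by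
    intro f
    have h : (psi S RatFunc.X).comp (mapRingHom (PowerSeries.C : E →+* PowerSeries E)) =
        ((pi E S).comp PowerSeries.C).comp (algebraMap E[X] (RatFunc E)) := by
      apply Polynomial.ringHom_ext
      · intro a
        simp [psi, evx]
      · simp [psi, evx]
    exact DFunLike.congr_fun h f
  have hQ' := Pool.Agent.Q153.SU.am_ne hQ
  have hP : PowerSeries.C (algebraMap E[X] (RatFunc E) P) =
      PowerSeries.C (rf P Q) * PowerSeries.C (algebraMap E[X] (RatFunc E) Q) := by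
    rw [← map_mul]
    congr 1
    unfold rf
    field_simp
  unfold hcr
  rw [map_sum]
  have h2 : psi S (rf P Q) g = ∑ i ∈ range (H + 1), pi E S (io E (g.coeff i)) *
      pi E S (PowerSeries.C (rf P Q)) ^ i := by
    change pi E S (eval₂ (io E) (PowerSeries.C (rf P Q)) g) = _
    rw [eval₂_eq_sum_range' _ (Nat.lt_succ_of_le hg), map_sum]
    refine Finset.sum_congr rfl fun i _ => ?_
    rw [map_mul, map_pow]
  rw [h2, Finset.mul_sum]
  refine Finset.sum_congr rfl fun i hi => ?_
  have hi' : i ≤ H := Nat.lt_succ_iff.1 (mem_range.1 hi)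
  rw [map_mul, map_mul, map_pow, map_pow, psi_C, hf, hf, hP, map_mul (pi E S), mul_pow]
  obtain ⟨j, rfl⟩ : ∃ j, H = i + j := ⟨H - i, by omega⟩
  rw [Nat.add_sub_cancel_left, pow_add]
  ring

/-- the inclusion of the polynomials as constants -/
noncomputable def kap (E : Type u) [Field E] (S : ℕ) : E[X] →+* BB E S :=
  ((pi E S).comp PowerSeries.C).comp (algebraMap E[X] (RatFunc E))

theorem nontriv {S : ℕ} (hS : 0 < S) : Nontrivial (BB E S) := by
  refine ⟨⟨pi E S 1, 0, ?_⟩⟩
  intro h
  have h1 := pi_zero.1 h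
  rw [PowerSeries.X_pow_dvd_iff] at h1
  have h2 := h1 0 hS
  simp at h2

theorem charBB (l : ℕ) [CharP E l] {S : ℕ} (hS : 0 < S) : CharP (BB E S) l := by
  have := nontriv (E := E) hS
  exact charP_of_injective_ringHom
    ((((pi E S).comp PowerSeries.C).comp (algebraMap E (RatFunc E))).injective) l

theorem psi_pow (l : ℕ) [hl : Fact l.Prime] [CharP E l] (s : ℕ) (f : (PowerSeries E)[X]) :
    (psi (l ^ s) RatFunc.X f) ^ (l ^ s) =
      (kap E (l ^ s) (f.map PowerSeries.constantCoeff)) ^ (l ^ s) := by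
  have hS : 0 < l ^ s := pow_pos hl.out.pos s
  have hc := charBB (E := E) l hS
  have h1 : PowerSeries.X ∣ evx RatFunc.X f -
      PowerSeries.C (algebraMap E[X] (RatFunc E) (f.map PowerSeries.constantCoeff)) := by
    rw [PowerSeries.X_dvd_iff, map_sub, cc_evx, PowerSeries.constantCoeff_C,
      RatFunc.aeval_X_left_eq_algebraMap, sub_self]
  have h2 : (psi (l ^ s) RatFunc.X f - kap E (l ^ s) (f.map PowerSeries.constantCoeff)) ^ (l ^ s) =
      0 := by
    have h3 : psi (l ^ s) RatFunc.X f - kap E (l ^ s) (f.map PowerSeries.constantCoeff) =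
        pi E (l ^ s) (evx RatFunc.X f -
      PowerSeries.C (algebraMap E[X] (RatFunc E) (f.map PowerSeries.constantCoeff))) := by
      rw [map_sub]
      rfl
    rw [h3, ← map_pow, pi_zero]
    exact pow_dvd_pow_of_dvd h1 _
  rw [sub_pow_char_pow] at h2
  exact sub_eq_zero.1 h2

theorem frP_map (l : ℕ) [hl : Fact l.Prime] [CharP E l] (r s β : ℕ) (G : (PowerSeries E)[X][X])
    (a : E[X]) (hred : red G = C a * (X - C (X ^ l ^ r)) ^ β) :
    (frP (l ^ s) G).map (psi (l ^ s) RatFunc.X) = C ((kap E (l ^ s) a) ^ (l ^ s)) *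
      (X - C ((kap E (l ^ s) X) ^ (l ^ r * l ^ s))) ^ β := by
  have hS : 0 < l ^ s := pow_pos hl.out.pos s
  have hc := charBB (E := E) l hS
  have h1 : (frP (l ^ s) G).map (psi (l ^ s) RatFunc.X) =
      (red G).map ((iterateFrobenius (BB E (l ^ s)) l s).comp (kap E (l ^ s))) := by
    ext i
    unfold frP
    rw [Polynomial.map_sum, finsetSum_coeff, coeff_map]
    simp only [Polynomial.map_mul, map_C, Polynomial.map_pow, map_X, coeff_C_mul, coeff_X_pow,
      mul_ite, mul_one, mul_zero]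
    rw [Finset.sum_ite_eq]
    unfold red
    rw [coeff_map, coe_mapRingHom, RingHom.comp_apply, iterateFrobenius_def, ← psi_pow, map_pow]
    by_cases hi : i ∈ range (G.natDegree + 1)
    · rw [if_pos hi]
    · rw [if_neg hi]
      have hi' : G.natDegree < i := by
        rw [mem_range] at hi
        omega
      rw [coeff_eq_zero_of_natDegree_lt hi', map_zero, zero_pow hS.ne']
  rw [h1, hred, Polynomial.map_mul, Polynomial.map_pow, Polynomial.map_sub, map_C, map_C, map_X,
    RingHom.comp_apply, RingHom.comp_apply, iterateFrobenius_def, iterateFrobenius_def,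
    map_pow (kap E (l ^ s)), ← pow_mul]

theorem unit_eval (l : ℕ) [hl : Fact l.Prime] [CharP E l] (r s : ℕ) (σ : E →+* PowerSeries E)
    (hσ : ∀ x, PowerSeries.constantCoeff (σ x) = x ^ l ^ r) (f : E[X]) (hf : f ≠ 0) :
    IsUnit ((f.map (((pi E (l ^ s)).comp (io E)).comp σ)).eval
      ((kap E (l ^ s) X) ^ (l ^ r * l ^ s))) := by
  have hS : 0 < l ^ s := pow_pos hl.out.pos s
  have hcK : CharP (RatFunc E) l :=
    charP_of_injective_ringHom (algebraMap E (RatFunc E)).injective l
  have e1 : (f.map (((pi E (l ^ s)).comp (io E)).comp σ)).eval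
      ((kap E (l ^ s) X) ^ (l ^ r * l ^ s)) =
      pi E (l ^ s) (eval₂ ((io E).comp σ) ((PowerSeries.C (RatFunc.X)) ^ (l ^ r * l ^ s)) f) := by
    have hk : pi E (l ^ s) (PowerSeries.C (RatFunc.X) ^ (l ^ r * l ^ s)) =
        kap E (l ^ s) X ^ (l ^ r * l ^ s) := by
      rw [map_pow]
      unfold kap
      rw [RingHom.comp_apply, RingHom.comp_apply, RatFunc.algebraMap_X]
    rw [hom_eval₂, eval_map, hk, RingHom.comp_assoc]
  rw [e1]
  apply pi_unit
  have e2 : PowerSeries.constantCoeff
      (eval₂ ((io E).comp σ) ((PowerSeries.C (RatFunc.X)) ^ (l ^ r * l ^ s)) f) =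
      (algebraMap E[X] (RatFunc E) (expand E (l ^ s) f)) ^ (l ^ r) := by
    have h : (PowerSeries.constantCoeff : PowerSeries (RatFunc E) →+* RatFunc E).comp
        (eval₂RingHom ((io E).comp σ) ((PowerSeries.C (RatFunc.X)) ^ (l ^ r * l ^ s))) =
        ((iterateFrobenius (RatFunc E) l r).comp (algebraMap E[X] (RatFunc E))).comp
          ((expand E (l ^ s) : E[X] →ₐ[E] E[X]) : E[X] →+* E[X]) := by
      apply Polynomial.ringHom_ext
      · intro x
        have h1 : PowerSeries.constantCoeff (io E (σ x)) =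
            algebraMap E (RatFunc E) (x ^ l ^ r) := by
          rw [← PowerSeries.coeff_zero_eq_constantCoeff_apply, PowerSeries.coeff_map,
            PowerSeries.coeff_zero_eq_constantCoeff_apply, hσ]
        simp only [RingHom.comp_apply, coe_eval₂RingHom, eval₂_C, RingHom.coe_coe, expand_C,
          iterateFrobenius_def]
        rw [h1, map_pow]
        rfl
      · simp only [RingHom.comp_apply, coe_eval₂RingHom, eval₂_X, RingHom.coe_coe, expand_X,
          iterateFrobenius_def, map_pow, PowerSeries.constantCoeff_C, RatFunc.algebraMap_X]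
        rw [← pow_mul, mul_comm]
    have h2 := DFunLike.congr_fun h f
    simp only [RingHom.comp_apply, coe_eval₂RingHom, RingHom.coe_coe, iterateFrobenius_def] at h2
    exact h2
  rw [e2]
  exact pow_ne_zero _ (Pool.Agent.Q153.SU.am_ne ((expand_ne_zero hS).2 hf))

theorem t_ppiP : S_ppiP.{u} := by
  intro l r s t β₀ H M' E _ hl _ σ hσ P Q P₁ Q₁ hco hP hQ hwr G Qt a A hlβ hβ₀ hDg ha hred hA hsM hDv
  have hS : 0 < l ^ s := pow_pos hl.out.pos s
  have hnt := nontriv (E := E) hS
  have hc := charBB (E := E) l hS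
  have hcX : CharP (BB E (l ^ s))[X] l := inferInstance
  -- the rational function is transcendental
  have hQ1 : Q₁ ≠ 0 := by
    rintro rfl
    apply hwr
    unfold wr
    simp
  have hQ0 : Q ≠ 0 := by rw [hQ]; exact (expand_ne_zero hS).2 hQ1
  have hdeg : 1 ≤ max P.natDegree Q.natDegree := by
    by_contra h0
    have h1 : P.natDegree = 0 := by
      have := le_max_left P.natDegree Q.natDegree; omega
    have h2 : Q.natDegree = 0 := by
      have := le_max_right P.natDegree Q.natDegree; omega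
    rw [hP, natDegree_expand] at h1
    rw [hQ, natDegree_expand] at h2
    apply hwr
    unfold wr
    rw [derivative_of_natDegree_zero ((Nat.mul_eq_zero.1 h1).resolve_right hS.ne'),
      derivative_of_natDegree_zero ((Nat.mul_eq_zero.1 h2).resolve_right hS.ne'), zero_mul,
      mul_zero, sub_zero]
  have htr : ∀ g : E[X], aeval (rf P Q) g = 0 → g = 0 := by
    intro g hg
    by_contra hg0
    have e8 := Pool.Agent.Q153.SU.hcm_spec (A := g) (d := g.natDegree) (u := P) hQ0 le_rfl
    rw [hg, mul_zero] at e8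
    exact Pool.Agent.Q153.SU.am_ne (Pool.Agent.Q24.SU.hcm_ne le_rfl hg0 hco hQ0 hdeg) e8
  set β := l ^ t * β₀ with hβ
  set v₀ : BB E (l ^ s) := (kap E (l ^ s) X) ^ (l ^ r * l ^ s) with hv₀
  set θ : E →+* BB E (l ^ s) := ((pi E (l ^ s)).comp (io E)).comp σ with hθ
  -- divisibility
  have hd1 : (X - C v₀) ^ β ∣ (nv β H P Q (P₁.map σ) (Q₁.map σ) G).map (psi (l ^ s) RatFunc.X) := by
    have h1 : (C A * nv β H P Q (P₁.map σ) (Q₁.map σ) G - Qt * frP (l ^ s) G).map
        (psi (l ^ s) RatFunc.X) = 0 := by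
      ext i
      rw [coeff_map, coeff_zero]
      exact psi_dvd hsM _ _ (fun j => hDv i j)
    rw [Polynomial.map_sub, Polynomial.map_mul, Polynomial.map_mul, map_C,
      frP_map l r s β G a hred, sub_eq_zero] at h1
    have h2 : IsUnit (psi (l ^ s) RatFunc.X A) := by
      apply pi_unit
      rw [cc_evx, RatFunc.aeval_X_left_eq_algebraMap]
      exact Pool.Agent.Q153.SU.am_ne hA
    obtain ⟨e, he⟩ := h2.exists_left_inv
    refine ⟨C e * Polynomial.map (psi (l ^ s) RatFunc.X) Qt * C ((kap E (l ^ s) a) ^ (l ^ s)), ?_⟩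
    have h3 : C e * C (psi (l ^ s) RatFunc.X A) = 1 := by rw [← C_mul, he, C_1]
    linear_combination (-(nv β H P Q (P₁.map σ) (Q₁.map σ) G).map (psi (l ^ s) RatFunc.X)) * h3 +
      C e * h1
  -- the homogenised polynomial
  set g : (BB E (l ^ s))[X] := G.map (psi (l ^ s) (rf P Q)) with hg
  have hnv : (nv β H P Q (P₁.map σ) (Q₁.map σ) G).map (psi (l ^ s) RatFunc.X) =
      C (pi E (l ^ s) (PowerSeries.C (algebraMap E[X] (RatFunc E) Q)) ^ H) *
        Hm β g (P₁.map θ) (Q₁.map θ) := by
    unfold nv Hm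
    rw [Polynomial.map_sum, Finset.mul_sum]
    refine Finset.sum_congr rfl fun j _ => ?_
    have hc1 : (psi (l ^ s) (RatFunc.X : RatFunc E)).comp C = (pi E (l ^ s)).comp (io E) :=
      RingHom.ext fun x => psi_C _ _ _
    rw [Polynomial.map_mul, Polynomial.map_mul, map_C, psi_hcr hQ0 _ (hDg.2 j),
      Polynomial.map_pow, Polynomial.map_pow, Polynomial.map_map, Polynomial.map_map,
      Polynomial.map_map, Polynomial.map_map, C_mul, hg, coeff_map]
    have hc2 : ((psi (l ^ s) (RatFunc.X : RatFunc E)).comp C).comp σ = θ := by rw [hc1]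
    have hc3 : (psi (l ^ s) (RatFunc.X : RatFunc E)).comp (C.comp σ) = θ := by
      rw [← RingHom.comp_assoc, hc2]
    first
      | rw [hc2]
      | rw [hc3]
    ring
  have hd2 : (X - C v₀) ^ β ∣ Hm β g (P₁.map θ) (Q₁.map θ) := by
    rw [hnv] at hd1
    have h1 : IsUnit (pi E (l ^ s) (PowerSeries.C (algebraMap E[X] (RatFunc E) Q)) ^ H) := by
      refine IsUnit.pow _ (pi_unit ?_)
      rw [PowerSeries.constantCoeff_C]
      exact Pool.Agent.Q153.SU.am_ne hQ0
    exact (isUnit_C.2 h1).dvd_mul_left.1 hd1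
  -- the fibre is a power
  obtain ⟨w, hw⟩ := fib β g (P₁.map θ) (Q₁.map θ) v₀ ((natDegree_map_le).trans hDg.1)
    (unit_eval l r s σ hσ Q₁ hQ1)
    (by
      have h1 : derivative (P₁.map θ) * Q₁.map θ - P₁.map θ * derivative (Q₁.map θ) =
          (wr P₁ Q₁).map θ := by
        unfold wr
        rw [Polynomial.map_sub, Polynomial.map_mul, Polynomial.map_mul, derivative_map,
          derivative_map]
      rw [h1]
      exact unit_eval l r s σ hσ _ hwr) hd2
  set c := g.coeff β with hcdef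
  have hw2 : g = C c * (X ^ l ^ t - C (w ^ l ^ t)) ^ β₀ := by
    rw [hβ, pow_mul, sub_pow_char_pow, ← C_pow] at hw
    exact hw
  have hL : 0 < l ^ t := pow_pos hl.out.pos t
  have hco2 : g.coeff (l ^ t * β₀ - l ^ t) = c * (-(w ^ l ^ t) * β₀) := by
    have h1 : (X ^ l ^ t - C (w ^ l ^ t) : (BB E (l ^ s))[X]) ^ β₀ =
        expand _ (l ^ t) ((X - C (w ^ l ^ t)) ^ β₀) := by
      rw [expand_eq_comp_X_pow, pow_comp, sub_comp, X_comp, C_comp]
    obtain ⟨b, rfl⟩ : ∃ b, β₀ = b + 1 := ⟨β₀ - 1, by omega⟩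
    have h2 : l ^ t * (b + 1) - l ^ t = l ^ t * b := by
      rw [Nat.mul_succ, Nat.add_sub_cancel]
    have h3 : (X - C (w ^ l ^ t) : (BB E (l ^ s))[X]) = X + C (-(w ^ l ^ t)) := by
      rw [C_neg, sub_eq_add_neg]
    rw [hw2, coeff_C_mul, h1, h2, coeff_expand_mul' hL, h3, coeff_X_add_C_pow,
      Nat.choose_succ_self_right, show b + 1 - b = 1 by omega, pow_one]
  -- the polynomial pp
  have hpp : (pp l t β₀ G).map (psi (l ^ s) (rf P Q)) = 0 := by
    have h1 : psi (l ^ s) (rf P Q) (G.coeff (l ^ t * β₀)) = c := by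
      rw [hcdef, hg, coeff_map]
    have h2 : psi (l ^ s) (rf P Q) (G.coeff (l ^ t * β₀ - l ^ t)) = c * (-(w ^ l ^ t) * β₀) := by
      rw [← hco2, hg, coeff_map]
    unfold pp
    rw [Polynomial.map_sub, Polynomial.map_mul, Polynomial.map_mul, Polynomial.map_pow,
      Polynomial.map_add, Polynomial.map_mul, Polynomial.map_pow, map_C, map_C, map_C, map_C,
      map_X, map_pow (psi (l ^ s) (rf P Q)), map_mul (psi (l ^ s) (rf P Q)), h1, h2, map_natCast,
      ← hg, hw2]
    have h3 : (C ((β₀ : BB E (l ^ s)) * c) * X ^ l ^ t + C (c * (-(w ^ l ^ t) * (β₀ : BB E (l ^ s)))) :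
        (BB E (l ^ s))[X]) = C ((β₀ : BB E (l ^ s)) * c) * (X ^ l ^ t - C (w ^ l ^ t)) := by
      simp only [C_mul, C_neg]
      ring
    rw [h3, mul_pow (C ((β₀ : BB E (l ^ s)) * c)), ← C_pow]
    ring
  intro i j
  refine psi_inj htr _ ?_ j
  rw [← coeff_map, hpp, coeff_zero]

end conc

end Q184.SP
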